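import Mathlib

set_option autoImplicit false

namespace H164

open Finset

variable {V : Type*} [DecidableEq V] (G : SimpleGraph V) [DecidableRel G.Adj]

/-- number of neighbours of `v` in `S` -/
def dg (S : Finset V) (v : V) : ℕ := (S.filter (fun u => G.Adj v u)).card

/-- a path with vertices `p 0, …, p r` inside `S` -/
structure IsP (S : Finset V) (p : ℕ → V) (r : ℕ) : Prop where
  mem : ∀ i, i ≤ r → p i ∈ S
  adj : ∀ i, i < r → G.Adj (p i) (p (i + 1))
  inj : ∀ i, i ≤ r → ∀ j, j ≤ r → p i = p j → i = j

/-- a cycle with `k` vertices `p 0, …, p (k - 1)` inside `S` -/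
structure IsC (S : Finset V) (p : ℕ → V) (k : ℕ) : Prop where
  three : 3 ≤ k
  mem : ∀ i, i < k → p i ∈ S
  adj : ∀ i, i + 1 < k → G.Adj (p i) (p (i + 1))
  close : G.Adj (p (k - 1)) (p 0)
  inj : ∀ i, i < k → ∀ j, j < k → p i = p j → i = j

variable {G}

theorem IsP.lt_card {S : Finset V} {p : ℕ → V} {r : ℕ} (h : IsP G S p r) : r < S.card := by
  have h1 : ((range (r + 1)).image p).card = r + 1 := by
    rw [Finset.card_image_of_injOn, Finset.card_range]
    intro i hi j hj hij
    simp only [Finset.coe_range, Set.mem_Iio] at hi hj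
    exact h.inj i (by omega) j (by omega) hij
  have h2 : (range (r + 1)).image p ⊆ S := by
    intro x hx
    rw [Finset.mem_image] at hx
    obtain ⟨i, hi, rfl⟩ := hx
    rw [Finset.mem_range] at hi
    exact h.mem i (by omega)
  have := Finset.card_le_card h2
  omega

theorem IsC.le_card {S : Finset V} {p : ℕ → V} {r : ℕ} (h : IsC G S p r) : r ≤ S.card := by
  have h1 : ((range r).image p).card = r := by
    rw [Finset.card_image_of_injOn, Finset.card_range]
    intro i hi j hj hij
    simp only [Finset.coe_range, Set.mem_Iio] at hi hj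
    exact h.inj i (by omega) j (by omega) hij
  have h2 : (range r).image p ⊆ S := by
    intro x hx
    rw [Finset.mem_image] at hx
    obtain ⟨i, hi, rfl⟩ := hx
    rw [Finset.mem_range] at hi
    exact h.mem i (by omega)
  have := Finset.card_le_card h2
  omega

theorem exists_max {P : ℕ → Prop} {b n : ℕ} (h0 : P n) (hb : ∀ k, P k → k ≤ b) :
    ∃ k, P k ∧ ∀ j, P j → j ≤ k := by
  classical
  have hne : ((range (b + 1)).filter P).Nonempty :=
    ⟨n, by rw [Finset.mem_filter, Finset.mem_range]; exact ⟨by have := hb n h0; omega, h0⟩⟩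
  refine ⟨((range (b + 1)).filter P).max' hne, ?_, ?_⟩
  · have := Finset.max'_mem _ hne
    rw [Finset.mem_filter] at this
    exact this.2
  · intro j hj
    apply Finset.le_max'
    rw [Finset.mem_filter, Finset.mem_range]
    exact ⟨by have := hb j hj; omega, hj⟩

/-- neighbours of the first vertex of a longest path lie on the path -/
theorem IsP.nbr_mem {S : Finset V} {p : ℕ → V} {r : ℕ} (h : IsP G S p r)
    (hmax : ∀ j, (∃ q, IsP G S q j) → j ≤ r) {u : V} (hu : u ∈ S) (hadj : G.Adj (p 0) u) :
    ∃ i, 1 ≤ i ∧ i ≤ r ∧ p i = u := by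
  by_contra hcon
  push Not at hcon
  have h0 : ∀ i, i ≤ r → p i ≠ u := by
    intro i hi
    rcases Nat.eq_zero_or_pos i with rfl | h1
    · exact hadj.ne
    · exact hcon i h1 hi
  have : IsP G S (fun i => if i = 0 then u else p (i - 1)) (r + 1) := by
    refine ⟨?_, ?_, ?_⟩
    · intro i hi
      by_cases h1 : i = 0
      · simp [h1, hu]
      · simp only [h1, if_false]
        exact h.mem _ (by omega)
    · intro i hi
      by_cases h1 : i = 0
      · subst h1; simp only [if_true, Nat.zero_add, one_ne_zero, if_false, Nat.sub_self]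
        exact hadj.symm
      · have h2 : i + 1 ≠ 0 := by omega
        simp only [h1, h2, if_false]
        have := h.adj (i - 1) (by omega)
        have e : i - 1 + 1 = i + 1 - 1 := by omega
        rw [e] at this
        exact this
    · intro i hi j hj hij
      by_cases h1 : i = 0 <;> by_cases h2 : j = 0
      · omega
      · simp only [h1, h2, if_true, if_false] at hij
        exact absurd hij.symm (h0 _ (by omega))
      · simp only [h1, h2, if_true, if_false] at hij
        exact absurd hij (h0 _ (by omega))
      · simp only [h1, h2, if_false] at hij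
        have := h.inj _ (by omega) _ (by omega) hij
        omega
  have := hmax _ ⟨_, this⟩
  omega

/-- index involution for the rotation at `j` -/
def rot (j i : ℕ) : ℕ := if i < j then j - 1 - i else i

theorem IsP.rotate {S : Finset V} {p : ℕ → V} {r : ℕ} (h : IsP G S p r) {j : ℕ} (hj1 : 1 ≤ j)
    (hj : j ≤ r) (hadj : G.Adj (p 0) (p j)) : IsP G S (fun i => p (rot j i)) r := by
  refine ⟨?_, ?_, ?_⟩
  · intro i hi
    apply h.mem
    unfold rot; split_ifs <;> omega
  · intro i hi
    show G.Adj (p (rot j i)) (p (rot j (i + 1)))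
    by_cases h1 : i + 1 < j
    · have h2 : i < j := by omega
      simp only [rot, h1, h2, if_true]
      have := h.adj (j - 1 - (i + 1)) (by omega)
      have e : j - 1 - (i + 1) + 1 = j - 1 - i := by omega
      rw [e] at this
      exact this.symm
    · by_cases h2 : i < j
      · have e : i + 1 = j := by omega
        have e2 : j - 1 - i = 0 := by omega
        simp only [rot, h1, h2, if_true, if_false, e2]
        rw [e]; exact hadj
      · simp only [rot, h1, h2, if_false]
        exact h.adj i (by omega)
  · intro i hi i' hi' hii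
    have h1 := h.inj (rot j i) (by unfold rot; split_ifs <;> omega) (rot j i')
      (by unfold rot; split_ifs <;> omega) hii
    unfold rot at h1
    split_ifs at h1 <;> omega

/-- one step of the Erdős–Gallai argument -/
theorem eg_step {S : Finset V} (hS : S.Nonempty) {c : ℕ} (hc : 2 ≤ c)
    (hcyc : ∀ p k, IsC G S p k → k ≤ c) :
    ∃ Z D : Finset V, Z ⊆ D ∧ D ⊆ S ∧ Z.Nonempty ∧ (∀ z ∈ Z, ∀ u ∈ S, G.Adj z u → u ∈ D) ∧
      D.card ≤ c ∧ ∀ z ∈ Z, dg G S z ≤ Z.card := by
  classical
  obtain ⟨v0, hv0⟩ := hS
  obtain ⟨r, ⟨p0, hp0⟩, hrmax⟩ := exists_max (P := fun r => ∃ q, IsP G S q r) (n := 0)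
    (b := S.card) ⟨fun _ => v0, ⟨fun _ _ => hv0, fun i hi => by omega, fun i hi j hj _ => by omega⟩⟩
    (by rintro k ⟨q, hq⟩; exact hq.lt_card.le)
  obtain ⟨s, ⟨p, hp, hsr, hs⟩, hsmax⟩ := exists_max
    (P := fun s => ∃ q, IsP G S q r ∧ s ≤ r ∧ (s = 0 ∨ G.Adj (q 0) (q s))) (n := 0)
    (b := r) ⟨p0, hp0, Nat.zero_le _, Or.inl rfl⟩ (by rintro k ⟨q, hq, h1, h2⟩; exact h1)
  rcases Nat.eq_zero_or_pos s with h0 | hs1
  · have hno : ∀ u ∈ S, ¬ G.Adj (p 0) u := by
      intro u hu hadj
      obtain ⟨i, h1, h2, rfl⟩ := hp.nbr_mem hrmax hu hadj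
      have := hsmax i ⟨p, hp, h2, Or.inr hadj⟩
      omega
    refine ⟨{p 0}, {p 0}, le_rfl, ?_, Finset.singleton_nonempty _, ?_, ?_, ?_⟩
    · rw [Finset.singleton_subset_iff]; exact hp.mem 0 (Nat.zero_le _)
    · intro z hz u hu hadj
      rw [Finset.mem_singleton] at hz
      subst hz
      exact absurd hadj (hno u hu)
    · rw [Finset.card_singleton]; omega
    · intro z hz
      rw [Finset.mem_singleton] at hz
      subst hz
      have : dg G S (p 0) = 0 := by
        unfold dg
        rw [Finset.card_eq_zero, Finset.filter_eq_empty_iff]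
        exact fun u hu => hno u hu
      omega
  · have hadj0 : G.Adj (p 0) (p s) := by
      rcases hs with h | h
      · omega
      · exact h
    set D := (range (s + 1)).image p with hD
    set Z := S.filter (fun z => ∃ q, IsP G S q r ∧ q 0 = z ∧ (∀ i, s ≤ i → i ≤ r → q i = p i) ∧
      (∀ i, i < s → ∃ j, j < s ∧ q i = p j)) with hZ
    refine ⟨Z, D, ?_, ?_, ?_, ?_, ?_, ?_⟩
    · intro z hz
      rw [hZ, Finset.mem_filter] at hz
      obtain ⟨hzS, q, hq, hq0, hq1, hq2⟩ := hz
      obtain ⟨j, hj, hj2⟩ := hq2 0 hs1
      rw [hD, Finset.mem_image]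
      exact ⟨j, Finset.mem_range.mpr (by omega), by rw [← hj2, hq0]⟩
    · intro z hz
      rw [hD, Finset.mem_image] at hz
      obtain ⟨j, hj, rfl⟩ := hz
      rw [Finset.mem_range] at hj
      exact hp.mem j (by omega)
    · refine ⟨p 0, ?_⟩
      rw [hZ, Finset.mem_filter]
      exact ⟨hp.mem 0 (Nat.zero_le _), p, hp, rfl, fun _ _ _ => rfl, fun i hi => ⟨i, hi, rfl⟩⟩
    · intro z hz u hu hadj
      rw [hZ, Finset.mem_filter] at hz
      obtain ⟨hzS, q, hq, hq0, hq1, hq2⟩ := hz
      rw [← hq0] at hadj
      obtain ⟨i, h1, h2, rfl⟩ := hq.nbr_mem hrmax hu hadj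
      have hi := hsmax i ⟨q, hq, h2, Or.inr hadj⟩
      rw [hD, Finset.mem_image]
      rcases Nat.lt_or_ge i s with h3 | h3
      · obtain ⟨j, hj, hj2⟩ := hq2 i h3
        exact ⟨j, Finset.mem_range.mpr (by omega), hj2.symm⟩
      · exact ⟨i, Finset.mem_range.mpr (by omega), (hq1 i h3 h2).symm⟩
    · have h1 : D.card ≤ s + 1 := by
        rw [hD]; exact Finset.card_image_le.trans (by rw [Finset.card_range])
      rcases Nat.lt_or_ge s 2 with h2 | h2
      · omega
      · have : IsC G S p (s + 1) := by
          refine ⟨by omega, fun i hi => hp.mem i (by omega), fun i hi => hp.adj i (by omega), ?_,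
            fun i hi j hj hij => hp.inj i (by omega) j (by omega) hij⟩
          simp only [Nat.add_sub_cancel]
          exact hadj0.symm
        have := hcyc _ _ this
        omega
    · intro z hz
      have hz' := hz
      rw [hZ, Finset.mem_filter] at hz
      obtain ⟨hzS, q, hq, hq0, hq1, hq2⟩ := hz
      set J := (range (s + 1)).filter (fun i => G.Adj z (q i)) with hJ
      have hJ1 : ∀ i ∈ J, 1 ≤ i ∧ i ≤ s ∧ G.Adj z (q i) := by
        intro i hi
        rw [hJ, Finset.mem_filter, Finset.mem_range] at hi
        refine ⟨?_, by omega, hi.2⟩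
        rcases Nat.eq_zero_or_pos i with h | h
        · have := hi.2
          rw [h, hq0] at this
          exact absurd this (G.loopless.irrefl z)
        · exact h
      have h1 : dg G S z ≤ J.card := by
        unfold dg
        have : S.filter (fun u => G.Adj z u) ⊆ J.image q := by
          intro u hu
          rw [Finset.mem_filter] at hu
          have hadj := hu.2
          rw [← hq0] at hadj
          obtain ⟨i, h1, h2, rfl⟩ := hq.nbr_mem hrmax hu.1 hadj
          have hi := hsmax i ⟨q, hq, h2, Or.inr hadj⟩
          rw [Finset.mem_image]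
          refine ⟨i, ?_, rfl⟩
          rw [hJ, Finset.mem_filter, Finset.mem_range]
          exact ⟨by omega, hu.2⟩
        exact (Finset.card_le_card this).trans Finset.card_image_le
      have h2 : (J.image (fun i => q (i - 1))).card = J.card := by
        apply Finset.card_image_of_injOn
        intro i hi j hj hij
        have hi' := hJ1 i hi
        have hj' := hJ1 j hj
        have := hq.inj (i - 1) (by omega) (j - 1) (by omega) hij
        omega
      have h3 : J.image (fun i => q (i - 1)) ⊆ Z := by
        intro x hx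
        rw [Finset.mem_image] at hx
        obtain ⟨i, hi, rfl⟩ := hx
        obtain ⟨hi1, hi2, hi3⟩ := hJ1 i hi
        rw [← hq0] at hi3
        have hrot := hq.rotate hi1 (by omega) hi3
        rw [hZ, Finset.mem_filter]
        refine ⟨hq.mem _ (by omega), _, hrot, ?_, ?_, ?_⟩
        · show q (rot i 0) = q (i - 1)
          unfold rot
          rw [if_pos (by omega)]
          congr 1
        · intro k hk1 hk2
          show q (rot i k) = p k
          unfold rot
          rw [if_neg (by omega)]
          exact hq1 k hk1 hk2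
        · intro k hk
          show ∃ j, j < s ∧ q (rot i k) = p j
          apply hq2
          unfold rot
          split_ifs <;> omega
      have := Finset.card_le_card h3
      omega

theorem dg_le {S : Finset V} {v : V} (hv : v ∈ S) : dg G S v ≤ S.card - 1 := by
  unfold dg
  rw [← Finset.card_erase_of_mem hv]
  apply Finset.card_le_card
  intro u hu
  rw [Finset.mem_filter] at hu
  rw [Finset.mem_erase]
  exact ⟨hu.2.ne', hu.1⟩

theorem dg_union {S T : Finset V} (h : Disjoint S T) (v : V) :
    dg G (S ∪ T) v = dg G S v + dg G T v := by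
  unfold dg
  rw [Finset.filter_union, Finset.card_union_of_disjoint]
  exact Finset.disjoint_filter_filter h

theorem sum_dg_comm (S T : Finset V) : ∑ v ∈ S, dg G T v = ∑ v ∈ T, dg G S v := by
  unfold dg
  simp only [Finset.card_filter]
  rw [Finset.sum_comm]
  apply Finset.sum_congr rfl
  intro x _
  apply Finset.sum_congr rfl
  intro y _
  simp only [G.adj_comm x y]

/-- Erdős–Gallai: if all cycles have at most `c` vertices then `2 e ≤ c (|S| - 1)` -/
theorem eg (c : ℕ) (hc : 2 ≤ c) : ∀ (n : ℕ) (S : Finset V), S.card = n → S.Nonempty →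
    (∀ p k, IsC G S p k → k ≤ c) → ∑ v ∈ S, dg G S v ≤ c * (S.card - 1) := by
  intro n
  induction n using Nat.strong_induction_on with
  | _ n ih =>
    intro S hn hS hcyc
    obtain ⟨Z, D, hZD, hDS, hZ, hN, hDc, hdeg⟩ := eg_step hS hc hcyc
    have hZS : Z ⊆ S := hZD.trans hDS
    by_cases hZeq : Z = S
    · have h1 : S.card ≤ c := by
        have := Finset.card_le_card (hZeq ▸ hZD : S ⊆ D)
        omega
      calc ∑ v ∈ S, dg G S v ≤ ∑ v ∈ S, (S.card - 1) := Finset.sum_le_sum (fun v hv => dg_le hv)
        _ = S.card * (S.card - 1) := by rw [Finset.sum_const, smul_eq_mul]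
        _ ≤ c * (S.card - 1) := Nat.mul_le_mul_right _ h1
    · set R := S \ Z with hR
      have hRne : R.Nonempty := by
        rw [hR, Finset.sdiff_nonempty]
        exact fun h => hZeq (Finset.Subset.antisymm hZS h)
      have hdisj : Disjoint R Z := Finset.sdiff_disjoint
      have hSeq : S = R ∪ Z := by rw [hR, Finset.sdiff_union_of_subset hZS]
      have hcard : S.card = R.card + Z.card := by
        rw [hSeq, Finset.card_union_of_disjoint hdisj]
      have hZpos : 0 < Z.card := hZ.card_pos
      have hRpos : 0 < R.card := hRne.card_pos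
      have hih := ih R.card (by omega) R rfl hRne (by
        intro p k hp
        apply hcyc p k
        exact ⟨hp.three, fun i hi => Finset.sdiff_subset (hp.mem i hi), hp.adj, hp.close, hp.inj⟩)
      have e1 : ∑ v ∈ S, dg G S v = ∑ v ∈ R, dg G R v + ∑ v ∈ Z, (dg G R v + dg G S v) := by
        conv_lhs => rw [hSeq, Finset.sum_union hdisj]
        have : ∑ v ∈ R, dg G (R ∪ Z) v = ∑ v ∈ R, dg G R v + ∑ v ∈ Z, dg G R v := by
          rw [← sum_dg_comm R Z, ← Finset.sum_add_distrib]
          exact Finset.sum_congr rfl (fun v _ => dg_union hdisj v)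
        rw [this, Finset.sum_add_distrib, add_assoc, ← hSeq]
      have e2 : ∑ v ∈ Z, (dg G R v + dg G S v) ≤ ∑ v ∈ Z, c := by
        apply Finset.sum_le_sum
        intro z hz
        have h1 := hdeg z hz
        have h2 : dg G R z ≤ (D \ Z).card := by
          unfold dg
          apply Finset.card_le_card
          intro u hu
          rw [Finset.mem_filter, hR, Finset.mem_sdiff] at hu
          rw [Finset.mem_sdiff]
          exact ⟨hN z hz u hu.1.1 hu.2, hu.1.2⟩
        have h3 := Finset.card_sdiff_of_subset hZD
        have h4 := Finset.card_le_card hZD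
        omega
      rw [Finset.sum_const, smul_eq_mul] at e2
      rw [e1]
      calc _ ≤ c * (R.card - 1) + Z.card * c := Nat.add_le_add hih e2
        _ = c * (S.card - 1) := by
          rw [hcard, mul_comm Z.card c, ← Nat.mul_add]
          congr 1
          omega

end H164
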