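import Pool.Agent.H164.Cyc1

set_option autoImplicit false

namespace H164

open Finset

variable {V : Type*} [DecidableEq V] {G : SimpleGraph V} [DecidableRel G.Adj]

/-- a cycle indexed by `ZMod c` -/
structure ZC (G : SimpleGraph V) (c : ℕ) (P : ZMod c → V) : Prop where
  adj : ∀ i, G.Adj (P i) (P (i + 1))
  inj : Function.Injective P

omit [DecidableEq V] [DecidableRel G.Adj] in
theorem IsC.toZC {S : Finset V} {p : ℕ → V} {c : ℕ} [NeZero c] (h : IsC G S p c) :
    ZC G c (fun i : ZMod c => p i.val) := by
  have h3 := h.three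
  constructor
  · intro i
    have hi := ZMod.val_lt i
    show G.Adj (p i.val) (p (i + 1).val)
    have : Fact (1 < c) := ⟨by omega⟩
    by_cases h1 : i.val + 1 < c
    · have e : (i + 1).val = i.val + 1 := by
        rw [ZMod.val_add, ZMod.val_one]
        exact Nat.mod_eq_of_lt h1
      rw [e]; exact h.adj _ h1
    · have e : i.val = c - 1 := by omega
      have e2 : (i + 1).val = 0 := by
        rw [ZMod.val_add, ZMod.val_one, e]
        have : c - 1 + 1 = c := by omega
        rw [this, Nat.mod_self]
      rw [e, e2]; exact h.close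
  · intro i j hij
    exact ZMod.val_injective c (h.inj _ (ZMod.val_lt i) _ (ZMod.val_lt j) hij)

theorem cast_inj_lt {c i j : ℕ} [NeZero c] (hi : i < c) (hj : j < c)
    (h : (i : ZMod c) = (j : ZMod c)) : i = j := by
  have := congrArg ZMod.val h
  rwa [ZMod.val_natCast_of_lt hi, ZMod.val_natCast_of_lt hj] at this

omit [DecidableEq V] [DecidableRel G.Adj] in
/-- cycles made of vertices of a cycle -/
theorem ZC.sub {c : ℕ} [NeZero c] {P : ZMod c → V} (hP : ZC G c P) {S : Finset V}
    (hS : ∀ i, P i ∈ S) (b : ZMod c) (m : ℕ) (hm : 3 ≤ m) (h : ℕ → ℕ)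
    (h1 : ∀ l, l < m → h l < c) (h2 : ∀ l, l < m → ∀ l', l' < m → h l = h l' → l = l')
    (h3 : ∀ l, l + 1 < m → G.Adj (P (b + (h l : ℕ))) (P (b + (h (l + 1) : ℕ))))
    (h4 : G.Adj (P (b + (h (m - 1) : ℕ))) (P (b + (h 0 : ℕ)))) :
    IsC G S (fun l => P (b + (h l : ℕ))) m := by
  refine ⟨hm, fun i _ => hS _, h3, h4, ?_⟩
  intro i hi j hj hij
  have := hP.inj hij
  exact h2 i hi j hj (cast_inj_lt (h1 i hi) (h1 j hj) (add_left_cancel this))

omit [DecidableEq V] [DecidableRel G.Adj] in
theorem ZC.step {c : ℕ} {P : ZMod c → V} (hP : ZC G c P) (b : ZMod c) (i j : ℕ)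
    (h : j = i + 1) : G.Adj (P (b + (i : ℕ))) (P (b + (j : ℕ))) := by
  subst h
  have := hP.adj (b + (i : ℕ))
  have e : b + (i : ℕ) + 1 = b + ((i + 1 : ℕ) : ZMod c) := by push_cast; ring
  rwa [e] at this

theorem ZC.dg_eq {c : ℕ} [NeZero c] {P : ZMod c → V} (hP : ZC G c P) (b : ZMod c) (v : V) :
    dg G (univ.image P) v = ((range c).filter (fun j => G.Adj v (P (b + (j : ℕ))))).card := by
  unfold dg
  symm
  apply Finset.card_bij (fun j _ => P (b + (j : ℕ)))
  · intro j hj
    rw [Finset.mem_filter] at hj ⊢
    exact ⟨Finset.mem_image_of_mem _ (Finset.mem_univ _), hj.2⟩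
  · intro i hi j hj hij
    rw [Finset.mem_filter, Finset.mem_range] at hi hj
    exact cast_inj_lt hi.1 hj.1 (add_left_cancel (hP.inj hij))
  · intro u hu
    rw [Finset.mem_filter, Finset.mem_image] at hu
    obtain ⟨⟨x, _, rfl⟩, hadj⟩ := hu
    refine ⟨(x - b).val, ?_, ?_⟩
    · rw [Finset.mem_filter, Finset.mem_range]
      refine ⟨ZMod.val_lt _, ?_⟩
      rw [ZMod.natCast_zmod_val]
      have : b + (x - b) = x := by ring
      rwa [this]
    · show P _ = P _
      rw [ZMod.natCast_zmod_val]
      congr 1; ring

/-- Bondy: consecutive vertices on a Hamilton cycle with no `C_m` have degree sum at most `c` -/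
theorem ZC.pair {c : ℕ} [NeZero c] {P : ZMod c → V} (hP : ZC G c P) {m : ℕ} (hm : 3 ≤ m)
    (hmc : m < c) (hno : ∀ f, ¬ IsC G (univ.image P) f m) (b : ZMod c) :
    dg G (univ.image P) (P b) + dg G (univ.image P) (P (b + ((c - 1 : ℕ) : ZMod c))) ≤ c := by
  have hS : ∀ i, P i ∈ univ.image P := fun i => Finset.mem_image_of_mem _ (Finset.mem_univ _)
  have hb0 : b + ((0 : ℕ) : ZMod c) = b := by simp
  have hclose : G.Adj (P (b + ((c - 1 : ℕ) : ZMod c))) (P (b + ((0 : ℕ) : ZMod c))) := by
    have := hP.adj (b + ((c - 1 : ℕ) : ZMod c))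
    have e : b + ((c - 1 : ℕ) : ZMod c) + 1 = b + ((0 : ℕ) : ZMod c) := by
      rw [add_assoc]
      congr 1
      have : ((c - 1 : ℕ) : ZMod c) + 1 = ((c - 1 + 1 : ℕ) : ZMod c) := by push_cast; ring
      rw [this, Nat.sub_add_cancel (by omega)]
      simp
    rwa [e] at this
  rw [hP.dg_eq b (P b), hP.dg_eq b]
  set J := (range c).filter (fun j => G.Adj (P b) (P (b + (j : ℕ)))) with hJ
  set J' := (range c).filter (fun j => G.Adj (P (b + ((c - 1 : ℕ) : ZMod c))) (P (b + (j : ℕ))))
    with hJ'
  set I := (range c).filter (fun j => 1 ≤ j ∧ j ≤ c - 2) with hI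
  have hIcard : I.card = c - 2 := by
    have : I = Finset.Icc 1 (c - 2) := by
      ext j
      rw [hI, Finset.mem_filter, Finset.mem_range, Finset.mem_Icc]
      constructor
      · rintro ⟨_, h⟩; exact h
      · rintro ⟨h1, h2⟩; exact ⟨by omega, h1, h2⟩
    rw [this, Nat.card_Icc]; omega
  have hJI : J ⊆ insert (c - 1) (J.filter (fun j => j ∈ I)) := by
    intro j hj
    have hj' := hj
    rw [hJ, Finset.mem_filter, Finset.mem_range] at hj
    rw [Finset.mem_insert, Finset.mem_filter]
    by_cases h : j = c - 1
    · exact Or.inl h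
    · refine Or.inr ⟨hj', ?_⟩
      rw [hI, Finset.mem_filter, Finset.mem_range]
      refine ⟨hj.1, ?_, by omega⟩
      rcases Nat.eq_zero_or_pos j with h0 | h0
      · have := hj.2
        rw [h0, hb0] at this
        exact absurd this (G.loopless.irrefl _)
      · exact h0
  have hJI' : J' ⊆ insert 0 (J'.filter (fun j => j ∈ I)) := by
    intro j hj
    have hj' := hj
    rw [hJ', Finset.mem_filter, Finset.mem_range] at hj
    rw [Finset.mem_insert, Finset.mem_filter]
    by_cases h : j = 0
    · exact Or.inl h
    · refine Or.inr ⟨hj', ?_⟩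
      rw [hI, Finset.mem_filter, Finset.mem_range]
      refine ⟨hj.1, by omega, ?_⟩
      by_contra hcon
      have h0 : j = c - 1 := by omega
      have := hj.2
      rw [h0] at this
      exact absurd this (G.loopless.irrefl _)
  have c1 := (Finset.card_le_card hJI).trans (Finset.card_insert_le _ _)
  have c2 := (Finset.card_le_card hJI').trans (Finset.card_insert_le _ _)
  set g : ℕ → ℕ := fun j => if j ≤ c - m + 1 then j + m - 3 else j + m - 1 - c with hg
  have hgI : ∀ j ∈ I, g j ∈ I := by
    intro j hj
    rw [hI, Finset.mem_filter, Finset.mem_range] at hj ⊢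
    simp only [hg]
    split_ifs <;> omega
  have hginj : Set.InjOn g (J.filter (fun j => j ∈ I) : Finset ℕ) := by
    intro i hi j hj hij
    rw [Finset.mem_coe, Finset.mem_filter] at hi hj
    have hi2 := hi.2
    have hj2 := hj.2
    rw [hI, Finset.mem_filter, Finset.mem_range] at hi2 hj2
    simp only [hg] at hij
    split_ifs at hij <;> omega
  have hdis : Disjoint ((J.filter (fun j => j ∈ I)).image g) (J'.filter (fun j => j ∈ I)) := by
    rw [Finset.disjoint_left]
    intro x hx hx'
    rw [Finset.mem_image] at hx
    obtain ⟨j, hj, rfl⟩ := hx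
    rw [Finset.mem_filter, hJ, Finset.mem_filter, Finset.mem_range] at hj
    obtain ⟨⟨hjc, hj1⟩, hjI⟩ := hj
    rw [Finset.mem_filter, hJ', Finset.mem_filter, Finset.mem_range] at hx'
    obtain ⟨⟨hxc, hx1⟩, hxI⟩ := hx'
    rw [hI, Finset.mem_filter, Finset.mem_range] at hjI hxI
    by_cases hcase : j ≤ c - m + 1
    · have hgj : g j = j + m - 3 := by simp only [hg]; rw [if_pos hcase]
      rw [hgj] at hx1 hxI
      refine hno _ (hP.sub hS b m hm
        (fun l => if l = 0 then 0 else if l = m - 1 then c - 1 else j + l - 1) ?_ ?_ ?_ ?_)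
      · intro l hl; split_ifs <;> omega
      · intro l hl l' hl' hll; split_ifs at hll <;> omega
      · intro l hl
        by_cases a1 : l = 0
        · subst a1
          rw [if_pos rfl, if_neg (by omega), if_neg (by omega), hb0]
          have : j + (0 + 1) - 1 = j := by omega
          rw [this]; exact hj1
        · by_cases a2 : l + 1 = m - 1
          · rw [if_neg a1, if_neg (by omega), if_neg (by omega), if_pos a2]
            have : j + l - 1 = j + m - 3 := by omega
            rw [this]; exact hx1.symm
          · rw [if_neg a1, if_neg (by omega), if_neg (by omega), if_neg a2]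
            exact hP.step b _ _ (by omega)
      · rw [if_neg (by omega), if_pos rfl, if_pos rfl]
        exact hclose
    · have hgj : g j = j + m - 1 - c := by simp only [hg]; rw [if_neg hcase]
      rw [hgj] at hx1 hxI
      refine hno _ (hP.sub hS b m hm
        (fun l => if l = 0 then 0 else if l ≤ c - j then j + l - 1
          else (j + m - 1 - c) - (l - (c - j) - 1)) ?_ ?_ ?_ ?_)
      · intro l hl; split_ifs <;> omega
      · intro l hl l' hl' hll; split_ifs at hll <;> omega
      · intro l hl
        by_cases a1 : l = 0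
        · subst a1
          rw [if_pos rfl, if_neg (by omega), if_pos (by omega), hb0]
          have : j + (0 + 1) - 1 = j := by omega
          rw [this]; exact hj1
        · by_cases a2 : l + 1 ≤ c - j
          · rw [if_neg a1, if_pos (by omega), if_neg (by omega), if_pos a2]
            exact hP.step b _ _ (by omega)
          · by_cases a3 : l ≤ c - j
            · rw [if_neg a1, if_pos a3, if_neg (by omega), if_neg a2]
              have e1 : j + l - 1 = c - 1 := by omega
              have e2 : j + m - 1 - c - (l + 1 - (c - j) - 1) = j + m - 1 - c := by omega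
              rw [e1, e2]; exact hx1
            · rw [if_neg a1, if_neg a3, if_neg (by omega), if_neg a2]
              exact (hP.step b _ _ (by omega)).symm
      · rw [if_neg (by omega), if_neg (by omega), if_pos rfl]
        have e1 : j + m - 1 - c - (m - 1 - (c - j) - 1) = 1 := by omega
        rw [e1]
        exact (hP.step b 0 1 rfl).symm
  have hun : (J.filter (fun j => j ∈ I)).image g ∪ (J'.filter (fun j => j ∈ I)) ⊆ I := by
    intro x hx
    rw [Finset.mem_union, Finset.mem_image, Finset.mem_filter] at hx
    rcases hx with ⟨j, hj, rfl⟩ | hx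
    · rw [Finset.mem_filter] at hj; exact hgI j hj.2
    · exact hx.2
  have c3 := Finset.card_le_card hun
  rw [Finset.card_union_of_disjoint hdis, Finset.card_image_of_injOn hginj, hIcard] at c3
  omega

/-- a Hamiltonian graph with `4 e > c ^ 2` contains all cycle lengths -/
theorem ZC.bondy {c : ℕ} [NeZero c] {P : ZMod c → V} (hP : ZC G c P)
    (he : c * c < 2 * ∑ v ∈ univ.image P, dg G (univ.image P) v) {m : ℕ} (hm : 3 ≤ m)
    (hmc : m ≤ c) : ∃ f, IsC G (univ.image P) f m := by
  have hS : ∀ i, P i ∈ univ.image P := fun i => Finset.mem_image_of_mem _ (Finset.mem_univ _)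
  rcases Nat.lt_or_ge m c with hlt | hge
  · by_contra hcon
    push Not at hcon
    have hp := fun b => hP.pair hm hlt hcon b
    have h1 := Finset.sum_le_sum (s := (univ : Finset (ZMod c))) (fun b _ => hp b)
    rw [Finset.sum_add_distrib, Finset.sum_const, Finset.card_univ, ZMod.card, smul_eq_mul] at h1
    have h2 : ∑ v ∈ univ.image P, dg G (univ.image P) v = ∑ b, dg G (univ.image P) (P b) := by
      rw [Finset.sum_image]
      intro i _ j _ hij; exact hP.inj hij
    have h3 : ∑ b, dg G (univ.image P) (P (b + ((c - 1 : ℕ) : ZMod c))) =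
        ∑ b, dg G (univ.image P) (P b) :=
      Fintype.sum_equiv (Equiv.addRight ((c - 1 : ℕ) : ZMod c)) _ _ (fun b => rfl)
    rw [h3] at h1
    rw [h2] at he
    omega
  · have hmeq : m = c := le_antisymm hmc hge
    subst hmeq
    refine ⟨_, hP.sub hS 0 m hm (fun l => l) (fun l hl => hl) (fun l _ l' _ h => h) ?_ ?_⟩
    · intro l hl
      exact hP.step 0 _ _ rfl
    · have := hP.adj ((m - 1 : ℕ) : ZMod m)
      have e : ((m - 1 : ℕ) : ZMod m) + 1 = ((0 : ℕ) : ZMod m) := by
        have : ((m - 1 : ℕ) : ZMod m) + 1 = ((m - 1 + 1 : ℕ) : ZMod m) := by push_cast; ring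
        rw [this, Nat.sub_add_cancel (by omega)]
        simp
      rw [e] at this
      simpa using this

/-- growth of cyclic sumsets with an interval -/
theorem interval_growth {c : ℕ} [NeZero c] (A : Finset (ZMod c)) (hA : A.Nonempty) :
    ∀ (t : ℕ), (∀ s, s < t → ((range (s + 1)).biUnion
      (fun i => A.image (fun a => a + ((i + 1 : ℕ) : ZMod c)))) ≠ univ) →
    A.card + t ≤ ((range (t + 1)).biUnion (fun i => A.image (fun a => a + ((i + 1 : ℕ) : ZMod c)))).card := by
  intro t
  induction t with
  | zero =>
    intro _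
    simp only [Nat.zero_add, Finset.range_one, Finset.singleton_biUnion, add_zero]
    rw [Finset.card_image_of_injective _ (add_left_injective _)]
  | succ t ih =>
    intro hne
    have h1 := ih (fun s hs => hne s (by omega))
    have h2 := hne t (by omega)
    set X := (range (t + 1)).biUnion (fun i => A.image (fun a => a + ((i + 1 : ℕ) : ZMod c))) with hX
    set Y := (range (t + 1 + 1)).biUnion (fun i => A.image (fun a => a + ((i + 1 : ℕ) : ZMod c)))
      with hY
    have hXY : X ⊆ Y := by
      apply Finset.biUnion_subset_biUnion_of_subset_left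
      intro i hi; rw [Finset.mem_range] at hi ⊢; omega
    have hsucc : ∀ x ∈ X, x + 1 ∈ Y := by
      intro x hx
      rw [hX, Finset.mem_biUnion] at hx
      obtain ⟨i, hi, hx⟩ := hx
      rw [Finset.mem_range] at hi
      rw [Finset.mem_image] at hx
      obtain ⟨a, ha, rfl⟩ := hx
      rw [hY, Finset.mem_biUnion]
      refine ⟨i + 1, Finset.mem_range.mpr (by omega), ?_⟩
      rw [Finset.mem_image]
      exact ⟨a, ha, by push_cast; ring⟩
    have hne2 : X ≠ Y := by
      intro heq
      apply h2
      obtain ⟨a, ha⟩ := hA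
      have hx0 : a + 1 ∈ X := by
        rw [hX, Finset.mem_biUnion]
        refine ⟨0, Finset.mem_range.mpr (by omega), ?_⟩
        rw [Finset.mem_image]
        exact ⟨a, ha, by push_cast; ring⟩
      have hall : ∀ n : ℕ, a + 1 + (n : ZMod c) ∈ X := by
        intro n
        induction n with
        | zero => simpa using hx0
        | succ n ihn =>
          have := hsucc _ ihn
          rw [← heq] at this
          have e : a + 1 + (n : ZMod c) + 1 = a + 1 + ((n + 1 : ℕ) : ZMod c) := by push_cast; ring
          rwa [e] at this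
      rw [Finset.eq_univ_iff_forall]
      intro y
      have := hall (y - (a + 1)).val
      rw [ZMod.natCast_zmod_val] at this
      have e : a + 1 + (y - (a + 1)) = y := by ring
      rwa [e] at this
    have := Finset.card_lt_card (Finset.ssubset_iff_subset_ne.mpr ⟨hXY, hne2⟩)
    omega

/-- some vertex outside a longest cycle has small degree -/
theorem ZC.outside {c : ℕ} [NeZero c] {P : ZMod c → V} (hP : ZC G c P) {S : Finset V}
    (hS : ∀ i, P i ∈ S) (hmax : ∀ f k, IsC G S f k → k ≤ c) (h3 : 3 ≤ c) (hlt : c < S.card)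
    (hle : S.card ≤ 2 * c) :
    ∃ v ∈ S, v ∉ univ.image P ∧ 2 * dg G S v ≤ S.card := by
  classical
  set C := univ.image P with hC
  have hCS : C ⊆ S := by
    intro x hx; rw [hC, Finset.mem_image] at hx; obtain ⟨i, _, rfl⟩ := hx; exact hS i
  have hCcard : C.card = c := by
    rw [hC, Finset.card_image_of_injective _ hP.inj, Finset.card_univ, ZMod.card]
  set W := S \ C with hW
  have hWcard : W.card = S.card - c := by
    rw [hW, Finset.card_sdiff_of_subset hCS, hCcard]
  have hWne : W.Nonempty := by
    rw [← Finset.card_pos]; omega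
  obtain ⟨w0, hw0⟩ := hWne
  obtain ⟨j, ⟨q, hq⟩, hjmax⟩ := exists_max (P := fun r => ∃ q, IsP G W q r) (n := 0)
    (b := W.card) ⟨fun _ => w0, ⟨fun _ _ => hw0, fun i hi => by omega, fun i hi j hj _ => by omega⟩⟩
    (by rintro k ⟨q, hq⟩; exact hq.lt_card.le)
  have hjW := hq.lt_card
  by_contra hcon
  push Not at hcon
  have hdisj : Disjoint C W := Finset.disjoint_sdiff
  have hSeq : S = C ∪ W := by rw [hW, Finset.union_sdiff_of_subset hCS]
  have hout : ∀ i, i ≤ j → S.card < 2 * dg G S (q i) := by
    intro i hi
    have h1 := hq.mem i hi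
    rw [hW, Finset.mem_sdiff] at h1
    exact hcon _ h1.1 h1.2
  -- degrees inside `W` of the two ends
  have hWdeg : ∀ q' : ℕ → V, IsP G W q' j → dg G W (q' 0) ≤ j := by
    intro q' hq'
    unfold dg
    have : W.filter (fun u => G.Adj (q' 0) u) ⊆ (Finset.Icc 1 j).image q' := by
      intro u hu
      rw [Finset.mem_filter] at hu
      obtain ⟨i, h1, h2, rfl⟩ := hq'.nbr_mem hjmax hu.1 hu.2
      exact Finset.mem_image_of_mem _ (Finset.mem_Icc.mpr ⟨h1, h2⟩)
    have := (Finset.card_le_card this).trans Finset.card_image_le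
    rwa [Nat.card_Icc, Nat.add_sub_cancel] at this
  have hrev : IsP G W (fun i => q (j - i)) j := by
    refine ⟨fun i hi => hq.mem _ (by omega), ?_, ?_⟩
    · intro i hi
      have := hq.adj (j - (i + 1)) (by omega)
      have e : j - (i + 1) + 1 = j - i := by omega
      rw [e] at this
      exact this.symm
    · intro i hi k hk hik
      have := hq.inj _ (by omega) _ (by omega) hik
      omega
  have d0 := hWdeg q hq
  have d1 := hWdeg _ hrev
  simp only [Nat.sub_zero] at d1
  have s0 : dg G S (q 0) = dg G C (q 0) + dg G W (q 0) := by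
    conv_lhs => rw [hSeq]
    exact dg_union hdisj _
  have s1 : dg G S (q j) = dg G C (q j) + dg G W (q j) := by
    conv_lhs => rw [hSeq]
    exact dg_union hdisj _
  have o0 := hout 0 (Nat.zero_le _)
  have o1 := hout j le_rfl
  set A := (univ : Finset (ZMod c)).filter (fun a => G.Adj (q 0) (P a)) with hA
  set B := (univ : Finset (ZMod c)).filter (fun a => G.Adj (q j) (P a)) with hB
  have dgC : ∀ v, dg G C v = ((univ : Finset (ZMod c)).filter (fun a => G.Adj v (P a))).card := by
    intro v
    unfold dg
    rw [hC, Finset.filter_image, Finset.card_image_of_injective _ hP.inj]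
  have hAc : dg G C (q 0) = A.card := dgC _
  have hBc : dg G C (q j) = B.card := dgC _
  have hApos : A.Nonempty := by rw [← Finset.card_pos]; omega
  have hBpos : B.Nonempty := by rw [← Finset.card_pos]; omega
  -- windows
  have hwin : ∀ a ∈ A, ∀ t : ℕ, t ≤ j → t + 1 ≤ c → a + ((t + 1 : ℕ) : ZMod c) ∉ B := by
    intro a ha t ht htc hb
    rw [hA, Finset.mem_filter] at ha
    rw [hB, Finset.mem_filter] at hb
    by_cases hsmall : j + 1 + (c - (t + 1) + 1) < 3
    · omega
    have hcyc : IsC G S (fun i => if i ≤ j then q i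
        else P (a + ((t + 1 : ℕ) : ZMod c) + ((i - (j + 1) : ℕ) : ZMod c)))
        (j + 1 + (c - (t + 1) + 1)) := by
      refine ⟨by omega, ?_, ?_, ?_, ?_⟩
      · intro i hi
        split_ifs with h
        · exact (Finset.mem_sdiff.mp (hq.mem i h)).1
        · exact hS _
      · intro i hi
        by_cases h1 : i + 1 ≤ j
        · rw [if_pos (by omega), if_pos h1]
          exact hq.adj i (by omega)
        · by_cases h2 : i ≤ j
          · rw [if_pos h2, if_neg h1]
            have e1 : i = j := by omega
            subst e1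
            have e2 : i + 1 - (i + 1) = 0 := by omega
            rw [e2, Nat.cast_zero, add_zero]
            exact hb.2
          · rw [if_neg h2, if_neg h1]
            exact hP.step _ _ _ (by omega)
      · rw [if_neg (by omega), if_pos (Nat.zero_le _)]
        have e : a + ((t + 1 : ℕ) : ZMod c) +
            ((j + 1 + (c - (t + 1) + 1) - 1 - (j + 1) : ℕ) : ZMod c) = a := by
          rw [add_assoc, ← Nat.cast_add]
          have : t + 1 + (j + 1 + (c - (t + 1) + 1) - 1 - (j + 1)) = c := by omega
          rw [this]
          simp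
        rw [e]
        exact ha.2.symm
      · intro i hi k hk hik
        have hnot : ∀ i, i ≤ j → ∀ x : ZMod c, q i ≠ P x := by
          intro i hi x hx
          have h1 := hq.mem i hi
          rw [hW, Finset.mem_sdiff] at h1
          apply h1.2
          rw [hx, hC]
          exact Finset.mem_image_of_mem _ (Finset.mem_univ _)
        by_cases h1 : i ≤ j <;> by_cases h2 : k ≤ j
        · rw [if_pos h1, if_pos h2] at hik
          exact hq.inj i h1 k h2 hik
        · rw [if_pos h1, if_neg h2] at hik
          exact absurd hik (hnot i h1 _)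
        · rw [if_neg h1, if_pos h2] at hik
          exact absurd hik.symm (hnot k h2 _)
        · rw [if_neg h1, if_neg h2] at hik
          have := add_left_cancel (hP.inj hik)
          have := cast_inj_lt (by omega) (by omega) this
          omega
    have := hmax _ _ hcyc
    omega
  have hjc : j + 1 ≤ c := by omega
  have hBdis : ∀ t, t ≤ j → Disjoint ((range (t + 1)).biUnion
      (fun i => A.image (fun a => a + ((i + 1 : ℕ) : ZMod c)))) B := by
    intro t ht
    rw [Finset.disjoint_left]
    intro x hx hxB
    rw [Finset.mem_biUnion] at hx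
    obtain ⟨i, hi, hx⟩ := hx
    rw [Finset.mem_range] at hi
    rw [Finset.mem_image] at hx
    obtain ⟨a, ha, rfl⟩ := hx
    exact hwin a ha i (by omega) (by omega) hxB
  have hgrow := interval_growth A hApos j (by
    intro s hs heq
    have := hBdis s (by omega)
    rw [heq] at this
    obtain ⟨b, hb⟩ := hBpos
    exact Finset.disjoint_left.mp this (Finset.mem_univ b) hb)
  have hfin := Finset.card_le_univ (((range (j + 1)).biUnion
      (fun i => A.image (fun a => a + ((i + 1 : ℕ) : ZMod c)))) ∪ B)
  rw [Finset.card_union_of_disjoint (hBdis j le_rfl), ZMod.card] at hfin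
  omega

theorem sum_dg_erase {S : Finset V} {v : V} (hv : v ∈ S) :
    ∑ u ∈ S, dg G S u = ∑ u ∈ S.erase v, dg G (S.erase v) u + 2 * dg G S v := by
  have hdisj : Disjoint (S.erase v) {v} := by simp
  have hSeq : S = S.erase v ∪ {v} := by
    ext x; simp only [Finset.mem_union, Finset.mem_erase, Finset.mem_singleton]
    constructor
    · intro hx; by_cases h : x = v
      · exact Or.inr h
      · exact Or.inl ⟨h, hx⟩
    · rintro (h | rfl)
      · exact h.2
      · exact hv
  have e0 : dg G {v} v = 0 := by
    unfold dg
    rw [Finset.card_eq_zero, Finset.filter_eq_empty_iff]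
    intro x hx
    rw [Finset.mem_singleton] at hx
    subst hx
    exact G.loopless.irrefl _
  have e1 : dg G S v = dg G (S.erase v) v := by
    conv_lhs => rw [hSeq, dg_union hdisj, e0, add_zero]
  have e2 : ∑ u ∈ S.erase v, dg G S u = ∑ u ∈ S.erase v, dg G (S.erase v) u +
      dg G (S.erase v) v := by
    have : ∑ u ∈ S.erase v, dg G S u = ∑ u ∈ S.erase v, (dg G (S.erase v) u + dg G {v} u) := by
      apply Finset.sum_congr rfl
      intro u _
      conv_lhs => rw [hSeq, dg_union hdisj]
    rw [this, Finset.sum_add_distrib, sum_dg_comm (S.erase v) {v}, Finset.sum_singleton]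
  rw [← Finset.add_sum_erase S _ hv, e2, e1]
  ring

/-- weak pancyclicity -/
theorem ZC.pan {c : ℕ} [NeZero c] {P : ZMod c → V} (hP : ZC G c P) (h3 : 3 ≤ c) :
    ∀ (n : ℕ) (S : Finset V), S.card = n → (∀ i, P i ∈ S) → (∀ f k, IsC G S f k → k ≤ c) →
    S.card ≤ 2 * c → S.card * S.card < 2 * ∑ v ∈ S, dg G S v →
    ∀ m, 3 ≤ m → m ≤ c → ∃ f, IsC G S f m := by
  intro n
  induction n with
  | zero =>
    intro S hn hS
    rw [Finset.card_eq_zero] at hn
    subst hn
    exact absurd (hS 0) (by simp)
  | succ n ih =>
    intro S hn hS hmax hle he m hm hmc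
    have hCS : univ.image P ⊆ S := by
      intro x hx; rw [Finset.mem_image] at hx; obtain ⟨i, _, rfl⟩ := hx; exact hS i
    have hCcard : (univ.image P).card = c := by
      rw [Finset.card_image_of_injective _ hP.inj, Finset.card_univ, ZMod.card]
    have hcS := Finset.card_le_card hCS
    rw [hCcard] at hcS
    rcases Nat.lt_or_ge c S.card with hlt | hge
    · obtain ⟨v, hvS, hvC, hdv⟩ := hP.outside hS hmax h3 hlt hle
      have hcard : (S.erase v).card = n := by rw [Finset.card_erase_of_mem hvS]; omega
      have hsum := sum_dg_erase (G := G) hvS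
      obtain ⟨f, hf⟩ := ih (S.erase v) hcard (by
          intro i
          rw [Finset.mem_erase]
          refine ⟨?_, hS i⟩
          rintro rfl
          exact hvC (Finset.mem_image_of_mem _ (Finset.mem_univ _)))
        (by
          intro f k hf
          exact hmax f k ⟨hf.three, fun i hi => Finset.mem_of_mem_erase (hf.mem i hi), hf.adj,
            hf.close, hf.inj⟩)
        (by omega)
        (by
          rw [hcard]
          rw [hsum] at he
          rw [hn] at he hdv
          generalize (∑ u ∈ S.erase v, dg G (S.erase v) u) = X at he ⊢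
          generalize dg G S v = d at he hdv
          rcases Nat.even_or_odd' n with ⟨k, hk | hk⟩
          · subst hk
            have : d ≤ k := by omega
            nlinarith
          · subst hk
            have h1 : d ≤ k + 1 := by omega
            have h2 : 4 * (k + 1) * (k + 1) < 2 * (X + 2 * d) := by nlinarith
            have h3 : 2 * ((k + 1) * (k + 1)) + 1 ≤ X + 2 * d := by nlinarith
            nlinarith)
        m hm hmc
      exact ⟨f, hf.three, fun i hi => Finset.mem_of_mem_erase (hf.mem i hi), hf.adj, hf.close,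
        hf.inj⟩
    · have hSeq : univ.image P = S := Finset.eq_of_subset_of_card_le hCS (by rw [hCcard]; exact hge)
      have hcard : S.card = c := le_antisymm hge hcS
      have := hP.bondy (by rw [hSeq, ← hcard]; exact he) hm hmc
      rw [hSeq] at this
      exact this

end H164
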